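import Pool.Agent.Run7.h159.ST.Robust

/-!
# Stations and time shifts: Meyniel's bound in graphs of small diameter

Known: `c(G) ≤ √(2 n)` if the diameter is two (Lu and Peng; Wagner). Here two moves are combined.

* **Stations.** `κ + 1` cops at a vertex `p` clear a set `Q` of vertices at distance at most two
  from `p` if no vertex at distance at least two from `p` has more than `κ` closed neighbours in `Q`:
  two rounds before the end they look at the robber and go to the at most `κ` vertices of `Q` which
  he can still reach in one step (one step later).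
* **Time shifts.** If the diameter is at most `d + 1`, then `k` cops who can clear the set `B` of
  all `x` with more than `k` vertices of `H` at distance at most `d` can also clear `H`: `d` rounds
  before the end the robber is caught, or at a vertex `x` outside `B`, and then the same cops go to
  all vertices of `H` which he can still reach. The numbers of cops do not add up.

This gives a recursion for the sets which can be cleared, and Meyniel's bound `O(√n)` for new
classes of graphs of diameter three and larger.
-/

set_option autoImplicit false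
open N6ef48c04
open scoped Classical

namespace Pool.Agent.Results.MP_964892_co.ShortBallStations

/-- Robber to move: the cops at `c` can force the condition `T` after exactly `h` rounds against
the robber at `x`. In each round the robber moves (or stays), then the cops move (or stay). -/
def Force {V : Type*} (G : SimpleGraph V) {ι : Type*} (T : (ι → V) → V → Prop) :
    ℕ → (ι → V) → V → Prop
  | 0, c, x => T c x
  | h + 1, c, x => ∀ x', Step G x x' →
      ∃ c' : ι → V, (∀ i, Step G (c i) (c' i)) ∧ Force G T h c' x'

/-- `k` cops can clear `W`: from every common starting vertex `o` and for every large enough `m`,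
they can force, wherever the robber starts, that after exactly `m` rounds he is outside `W` or at
the vertex of a cop. -/
def Clears {V : Type*} (G : SimpleGraph V) (k : ℕ) (W : Finset V) : Prop :=
  ∀ o : V, ∃ M : ℕ, ∀ m, M ≤ m → ∀ x,
    Force G (fun (c : Fin k → V) x => x ∈ W → ∃ i, c i = x) m (fun _ => o) x

/-- The vertices of `H` at distance at most `d` from `x`. -/
noncomputable def near {V : Type*} (G : SimpleGraph V) (d : ℕ) (x : V) (H : Finset V) : Finset V :=
  H.filter fun z => G.dist x z ≤ d

theorem force_play {V : Type*} (G : SimpleGraph V) {ι : Type*} (T : (ι → V) → V → Prop) (h : ℕ) :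
    ∀ (c : ι → V) (x : V), Force G T h c x ↔ Pool.Agent.TH524.Mey.Play G T h c x := by
  induction h with
  | zero => exact fun c x => Iff.rfl
  | succ h ih =>
    intro c x
    constructor
    · intro h1 x' hx'
      obtain ⟨c', h2, h3⟩ := h1 x' hx'
      exact ⟨c', h2, (ih c' x').1 h3⟩
    · intro h1 x' hx'
      obtain ⟨c', h2, h3⟩ := h1 x' hx'
      exact ⟨c', h2, (ih c' x').2 h3⟩

theorem clears_iff {V : Type*} (G : SimpleGraph V) (k : ℕ) (W : Finset V) :
    Clears G k W ↔ Pool.Agent.TH524.Mey.Clears G k W := by
  constructor
  · intro h o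
    obtain ⟨M, hM⟩ := h o
    exact ⟨M, fun m hm x => (force_play G _ m _ x).1 (hM m hm x)⟩
  · intro h o
    obtain ⟨M, hM⟩ := h o
    exact ⟨M, fun m hm x => (force_play G _ m _ x).2 (hM m hm x)⟩

/-- Let `G` be a connected graph on `n` vertices.

(1) The recursion principle. Let `C ≥ 0`, and suppose that for each non-empty set `H` of vertices
one of the following holds:
(a) some `q` cops can clear some set `Q` which meets `H`, and `q + C √|H ∖ Q| ≤ C √|H|`;
(b) `81 √|H| (log n + 1) ≤ K + C √|H|`;
(c) some `q` cops can clear some set `Q`, the diameter of `G` is at most `d + 1`, and the number `b`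
of the vertices `x` with more than `K` vertices of `H ∖ Q` at distance at most `d` satisfies
`b < |H|` and `q + C √b ≤ C √|H|`.
Then `c(G) ≤ K + C √n`.

(2) Stations: `κ + 1` cops can clear any set `Q` of vertices at distance at most two from some
vertex `p`, if no vertex at distance at least two from `p` has more than `κ` closed neighbours
in `Q`.

(3) If the diameter is at most `d + 1` and each non-empty set `H` contains some `x` with at most `K`
vertices of `H` at distance at most `d` (that is, the power `G ^ d` has no non-empty set of vertices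
of minimum degree at least `K`), then `c(G) ≤ K`.

(4) Diameter three: let the diameter be at most three, and let `L` be a set of exceptional vertices
with `(81 (log n + 1)) ^ 4 |L| ≤ n` (for example `L = ∅`). If each vertex `x` at distance at least
two from a vertex `p` has at most `τ` closed neighbours outside `L` at distance at most two from `p`,
then `c(G) ≤ √(8 (τ + 1) n)`.

(5) If for each non-empty set `H` of vertices outside `L` some ball of radius two contains at least
`|H| / g` vertices of `H` (that is, the vertices outside `L` have fractional distance-two domination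
number at most `g`), then `c(G) ≤ 4 g √n + 81 √|L| (log n + 1)`.

(6) Let the diameter be at most `d + 1`, and let each vertex outside `L` have at most `K / 4` vertices
at distance at most `d` or at least `n / g` vertices at distance at most two. If
`(81 (log n + 1)) ^ 2 √|L| ≤ K`, then `c(G) ≤ K + (8 g + 2) √n`. If `L = ∅`, then
`c(G) ≤ K + 8 g √n`. -/
theorem result {V : Type*} [Fintype V] (G : SimpleGraph V) (hG : G.Connected) :
    -- (1) the recursion principle
    (∀ (K : ℕ) (C : ℝ), 0 ≤ C →
      (∀ H : Finset V, H.Nonempty →
        (∃ (Q : Finset V) (q : ℕ), Clears G q Q ∧ (H ∩ Q).Nonempty ∧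
          q + C * √((H \ Q).card : ℝ) ≤ C * √(H.card : ℝ)) ∨
        81 * √(H.card : ℝ) * (Real.log (Fintype.card V) + 1) ≤ K + C * √(H.card : ℝ) ∨
        (∃ (Q : Finset V) (q d : ℕ), Clears G q Q ∧ (∀ x y, G.dist x y ≤ d + 1) ∧
          (Finset.univ.filter fun x => K < (near G d x (H \ Q)).card).card < H.card ∧
          q + C * √((Finset.univ.filter fun x => K < (near G d x (H \ Q)).card).card : ℝ) ≤
            C * √(H.card : ℝ))) →
      (copNumber G : ℝ) ≤ K + C * √(Fintype.card V : ℝ)) ∧
    -- (2) stations
    (∀ (p : V) (Q : Finset V) (κ : ℕ), (∀ z ∈ Q, G.dist p z ≤ 2) →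
      (∀ x, 2 ≤ G.dist p x → (near G 1 x Q).card ≤ κ) → Clears G (κ + 1) Q) ∧
    -- (3) powers without dense parts
    (∀ d K : ℕ, (∀ x y, G.dist x y ≤ d + 1) →
      (∀ H : Finset V, H.Nonempty → ∃ x ∈ H, (near G d x H).card ≤ K) → copNumber G ≤ K) ∧
    -- (4) diameter three
    (∀ (τ : ℕ) (L : Finset V),
      (81 * (Real.log (Fintype.card V) + 1)) ^ 2 * √(L.card : ℝ) ≤ √(Fintype.card V : ℝ) →
      (∀ x y, G.dist x y ≤ 3) →
      (∀ p x, 2 ≤ G.dist p x →
        (Finset.univ.filter fun z => z ∉ L ∧ G.dist x z ≤ 1 ∧ G.dist p z ≤ 2).card ≤ τ) →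
      (copNumber G : ℝ) ≤ √(8 * (τ + 1) * Fintype.card V)) ∧
    -- (5) fractional domination at distance two
    (∀ (g : ℝ) (L : Finset V), 0 ≤ g →
      (∀ H : Finset V, H.Nonempty → Disjoint H L → ∃ p, (H.card : ℝ) ≤ g * (near G 2 p H).card) →
      (copNumber G : ℝ) ≤ 4 * g * √(Fintype.card V : ℝ) +
        81 * √(L.card : ℝ) * (Real.log (Fintype.card V) + 1)) ∧
    -- (6) small balls of radius `d` or large balls of radius two
    (∀ (d K : ℕ) (g : ℝ) (L : Finset V), 0 ≤ g → (∀ x y, G.dist x y ≤ d + 1) →
      (∀ z, z ∉ L → 4 * (near G d z Finset.univ).card ≤ K ∨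
        (Fintype.card V : ℝ) ≤ g * (near G 2 z Finset.univ).card) →
      ((81 * (Real.log (Fintype.card V) + 1)) ^ 2 * √(L.card : ℝ) ≤ K →
        (copNumber G : ℝ) ≤ K + (8 * g + 2) * √(Fintype.card V : ℝ)) ∧
      (L = ∅ → (copNumber G : ℝ) ≤ K + 8 * g * √(Fintype.card V : ℝ))) := by
  refine ⟨fun K C hC h => ?_, fun p Q κ h1 h2 => ?_, fun d K hd hK => ?_,
    fun τ L hL hd hτ => ?_, fun g L hg hL => ?_, fun d K g L hg hd h => ?_⟩
  · refine Run7.h159.ST.principle G hG K C hC fun H hH => ?_
    rcases h H hH with ⟨Q, q, h1, h2, h3⟩ | h1 | ⟨Q, q, d, h1, h2, h3, h4⟩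
    · exact Or.inl ⟨Q, q, (clears_iff G q Q).1 h1, h2, h3⟩
    · exact Or.inr (Or.inl h1)
    · exact Or.inr (Or.inr ⟨Q, q, d, (clears_iff G q Q).1 h1, h2, h3, h4⟩)
  · exact (clears_iff G _ Q).2 (Run7.h159.ST.station G hG p Q κ h1 h2)
  · exact Run7.h159.ST.core_bound G hG d K hd hK
  · exact Run7.h159.ST.diameter_three' G hG τ L hL hd hτ
  · exact Run7.h159.ST.domination_bound' G hG g hg L hL
  · have h1 : ∀ (e : ℕ) (z : V), (near G e z Finset.univ).card =
        (Finset.univ.filter fun x => G.dist x z ≤ e).card := by
      intro e z
      unfold near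
      congr 1
      ext x
      simp only [Finset.mem_filter, Finset.mem_univ, true_and]
      rw [SimpleGraph.dist_comm]
    have h2 : ∀ z, z ∉ L → 4 * (Finset.univ.filter fun x => G.dist x z ≤ d).card ≤ K ∨
        (Fintype.card V : ℝ) ≤ g * (Finset.univ.filter fun x => G.dist x z ≤ 2).card := by
      intro z hz
      rw [← h1 d, ← h1 2]
      exact h z hz
    refine ⟨fun hL => Run7.h159.ST.dichotomy' G hG d K g hg L hL hd h2, fun hL => ?_⟩
    subst hL
    exact Run7.h159.ST.dichotomy G hG d K g hg hd fun z => h2 z (Finset.notMem_empty z)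

end Pool.Agent.Results.MP_964892_co.ShortBallStations
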