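import Pool.Agent.Run7.h515.CS.Layers

/-!
# The cop number is at most the treewidth of a spanner, plus one

It is known that `c(G) ≤ tw(G) / 2 + 1`. Here the treewidth of `G` is replaced by the treewidth of
**another graph** `H` with the same vertices, which can be much smaller (for example if `G` is dense):
it is enough that for each edge `x y` of `G` there is a path of `H` from `x` to `y` in the union of
the closed neighbourhoods of `x` and `y` in `G`. Then `c(G) ≤ tw(H) + 1`. This is the case

* if `H` is a spanner of `G` of stretch three (a subgraph in which adjacent vertices of `G` have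
  distance at most three);
* if all closed neighbourhoods of `G` are connected in `H` (`H` need not be a subgraph of `G`).

So Meyniel's bound `c(G) = O(√n)` holds for all graphs with such `H` of treewidth `O(√n)`.

* Another case: if the vertices of `G` have layers such that for each edge `x y` all layers between
  the layers of `x` and `y` contain a vertex of the closed neighbourhood of `x` or `y`, then `c(G)` is
  at most the largest number of vertices in two consecutive layers. So Meyniel's bound holds if
  there are such layers with `O(√n)` vertices.

Proof. Let the cops occupy the boundary (in `H`) of a connected set `S` of `H`. If the robber leaves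
`S` through an edge `x y` then the path of `H` from `x` to `y` contains a vertex of the boundary,
which is adjacent to `x` or `y`, so he is caught. If the boundary lies in a bag then it also lies in a
bag which meets `S`. The free cops go to the other vertices of this bag, and the robber is left in
a smaller set whose boundary is contained in this bag.
-/

set_option autoImplicit false
open N6ef48c04

namespace Pool.Agent.Results.MP_964892_co.SpannerTreewidth

open SimpleGraph Pool.Agent.Run7.h515.CS

/-- `H` has a tree decomposition whose bags have at most `w` vertices (treewidth at most `w - 1`):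
a tree `T` with a bag of vertices for each node, such that each edge of `H` lies in a bag, and for
each vertex the nodes whose bags contain it form a non-empty subtree. -/
def TreeDec {V : Type} (H : SimpleGraph V) (w : ℕ) : Prop :=
  ∃ (κ : Type) (T : SimpleGraph κ) (bag : κ → Finset V), T.IsTree ∧
    (∀ u v, H.Adj u v → ∃ t, u ∈ bag t ∧ v ∈ bag t) ∧
    (∀ v, (T.induce {t | v ∈ bag t}).Connected) ∧ ∀ t, (bag t).card ≤ w

theorem result (V : Type) [Fintype V] (G : SimpleGraph V) (hG : G.Connected) :
    -- (1) the general bound
    (∀ (H : SimpleGraph V) (w : ℕ), TreeDec H w →
      (∀ x y, G.Adj x y → ∃ p : H.Walk x y, ∀ z ∈ p.support, Step G z x ∨ Step G z y) →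
      copNumber G ≤ w) ∧
    -- (2) spanners of stretch three
    (∀ (H : SimpleGraph V) (w : ℕ), TreeDec H w → H ≤ G →
      (∀ x y, G.Adj x y → H.edist x y ≤ 3) → copNumber G ≤ w) ∧
    -- (3) graphs in which the closed neighbourhoods are connected
    (∀ (H : SimpleGraph V) (w : ℕ), TreeDec H w →
      (∀ x, (H.induce {z | Step G z x}).Preconnected) → copNumber G ≤ w) ∧
    -- (4) layers
    (∀ (layer : V → ℕ) (w : ℕ), (∀ j, {v | layer v = j ∨ layer v = j + 1}.ncard ≤ w) →
      (∀ x y, G.Adj x y → ∀ j, layer x < j → j < layer y →
        ∃ z, layer z = j ∧ (Step G z x ∨ Step G z y)) → copNumber G ≤ w) := by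
  have h1 : ∀ (H : SimpleGraph V) (w : ℕ), TreeDec H w →
      (∀ x y, G.Adj x y → ∃ p : H.Walk x y, ∀ z ∈ p.support, Step G z x ∨ Step G z y) →
      copNumber G ≤ w := by
    rintro H w ⟨κ, T, bag, hT, hedge, hconn, hw⟩ hsup
    exact cop_bound hT hG hsup bag hedge hconn w hw
  exact ⟨h1, fun H w hH hHG hsp => h1 H w hH (sup_of_spanner hHG hsp),
    fun H w hH hs => h1 H w hH (sup_of_support hs),
    fun layer w hw hcol => layer_bound hG layer w hw hcol⟩

end Pool.Agent.Results.MP_964892_co.SpannerTreewidth
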