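import Pool.Agent.Run7.h471.TV.Order
import Pool.Agent.Run7.h471.TV.Classic

/-!
# Cops and robbers on time-varying graphs and digraphs

Let `E t` be the relation of the moves which are possible in round `t`. The relations are
arbitrary: they may be completely different in different rounds, they need not be symmetric, and
null moves need not be allowed. In each round first the robber and then all the cops move; for the
constant sequence of a graph `G` this is the classical game (part (4)). Everybody knows the
sequence.

The starting files prove `c(G) ≤ 81 √n (log n + 1)` for graphs and for strongly connected digraphs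
with null moves. Here the same number of cops wins for every sequence `E` for which there is a `D`
such that, in any `D` consecutive rounds, one can go from every vertex to every vertex; moreover the
robber is caught within `(⌊log₂ n⌋ + 2) D` rounds. If every `E t` consists of the null moves and of
the edges of a connected graph, in each round another one, then `D = n - 1` is suitable, so
`O(√n log n)` cops win on every temporal graph all of whose snapshots are connected, and on every
periodic sequence of graphs in which every vertex can reach every vertex.

The order of the moves in a round is essential (part (5)): there are sequences of period two with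
null moves and with `D = 3` on `n = 2 s` vertices for which `s` cops are needed if in each round the
cops move first.

Proof. The entropy method of the starting files (`H594R2.Mey2`, `H138R2.Mey`) is carried out with a
relation that depends on the time: a cop imitates the robber of the game in which the roles of the
two are exchanged, and both games use the same move relation in each round because the robber moves
first in each round. The two guarantees `p`, `q` satisfy `p z * q z ≥ (4 / 5) / |Z|` for all
ends `z ∈ Z`. Then new cops are brought in in windows of `D` rounds, and the set of the ends that are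
not covered shrinks by the factor `4 / 9` in each window.
-/

set_option autoImplicit false

namespace Pool.Agent.Results.MP_964892_co.TimeVaryingGraphs

open N6ef48c04
open Pool.Agent.Run7.h471.TV

/-- `Caught E m t c r`: round `t` is about to begin, the cops are at `c` and the robber is at `r`,
and the cops can catch the robber within `m` rounds, if `E t` is the relation of the moves in round
`t` and in each round first the robber and then all the cops move. `Reach E m t x z`: one can go
from `x` to `z` with one move in each of the rounds `t, …, t + m - 1`. `Step G u v` is `u = v` or
`G.Adj u v`. `CaughtCopsFirst E m t c r` is the same as `Caught E m t c r`, but in each round first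
all the cops and then the robber move. -/
theorem result {V : Type*} [Fintype V] [Nonempty V] (k : ℕ)
    (hk : 81 * √(Fintype.card V) * (Real.log (Fintype.card V) + 1) - 1 ≤ k) :
    -- (1) arbitrary sequences of relations
    (∀ (E : ℕ → V → V → Prop) (D : ℕ), (∀ t x, ∃ y, E t x y) → (∀ t x z, Reach E D t x z) →
      ∀ (t : ℕ) (c : Fin k → V) (r : V),
        Caught E ((Nat.log 2 (Fintype.card V) + 2) * D) t c r) ∧
    -- (2) sequences of connected graphs
    (∀ G : ℕ → SimpleGraph V, (∀ t, (G t).Connected) →
      ∀ (t : ℕ) (c : Fin k → V) (r : V),
        Caught (fun t => Step (G t))
          ((Nat.log 2 (Fintype.card V) + 2) * (Fintype.card V - 1)) t c r) ∧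
    -- (3) periodic sequences with null moves
    (∀ (E : ℕ → V → V → Prop) (p : ℕ), 0 < p → (∀ t x, E t x x) → (∀ t, E (t + p) = E t) →
      (∀ x z, ∃ m, Reach E m 0 x z) →
      ∃ m, ∀ (t : ℕ) (c : Fin k → V) (r : V), Caught E m t c r) ∧
    -- (4) the constant sequence of a graph gives the classical game
    (∀ (G : SimpleGraph V) (j : ℕ), CopsWin G j ↔
      ∃ c : Fin j → V, ∀ r, ∃ m, Caught (fun _ => Step G) m 0 c r) ∧
    -- (5) if the cops move first in each round, `n / 2` cops may be needed
    (∀ s : ℕ, ∃ E : ℕ → Bool × Fin s → Bool × Fin s → Prop,
      (∀ t x, E t x x) ∧ (∀ t, E (t + 2) = E t) ∧ (∀ t x z, Reach E 3 t x z) ∧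
      ∀ j < s, ∀ c : Fin j → Bool × Fin s, ∃ r, ∀ m, ¬ CaughtCopsFirst E m 0 c r) := by
  have hk' : 81 * √(Fintype.card V) * (Real.log (Fintype.card V) + 1) - 1 ≤
      Fintype.card (Fin k) := by
    rw [Fintype.card_fin]
    exact hk
  have h1 : ∀ (E : ℕ → V → V → Prop) (D : ℕ), (∀ t x, ∃ y, E t x y) →
      (∀ t x z, Reach E D t x z) → ∀ (t : ℕ) (c : Fin k → V) (r : V),
        Caught E ((Nat.log 2 (Fintype.card V) + 2) * D) t c r :=
    fun E D hE hD t c r => forward E D hE hD hk' t c r
  refine ⟨h1, fun G hG t c r => ?_, fun E p hp hE hper hr => ?_, fun G j => classical G j,
    copsFirst_fail⟩
  · exact h1 (fun t => Step (G t)) (Fintype.card V - 1) (fun t x => ⟨x, Or.inl rfl⟩)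
      (reach_connected G hG) t c r
  · obtain ⟨D, hD⟩ := reach_periodic E p hp hE hper hr
    exact ⟨_, fun t c r => h1 E D (fun t x => ⟨x, hE t x⟩) hD t c r⟩

end Pool.Agent.Results.MP_964892_co.TimeVaryingGraphs
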